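import Mathlib

namespace Pool.Agent.Results.MP_463e5e_co.HamiltonianStackable

open SimpleGraph

/-- A single move `u ↦ v` turning the configuration `C` into the configuration `C'`: both `u` and
`v` carry at least one cup, the distance from `u` to `v` equals the number of cups on `u`, and all
the cups on `u` are put on `v`. -/
def Move {V : Type*} (G : SimpleGraph V) (C C' : V → ℕ) : Prop :=
  ∃ u v : V, 1 ≤ C u ∧ 1 ≤ C v ∧ G.dist u v = C u ∧
    C' u = 0 ∧ C' v = C u + C v ∧ ∀ w, w ≠ u → w ≠ v → C' w = C w

/-- `G` is `r`-stackable: starting from one cup on every vertex, some finite sequence of moves puts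
all the cups on `r`. -/
def StackableAt {V : Type*} [Fintype V] [DecidableEq V] (G : SimpleGraph V) (r : V) : Prop :=
  Relation.ReflTransGen (Move G) (fun _ => 1) (fun v => if v = r then Fintype.card V else 0)

/-- `G` is stackable: it is `r`-stackable for every vertex `r`. -/
def Stackable {V : Type*} [Fintype V] [DecidableEq V] (G : SimpleGraph V) : Prop :=
  ∀ r : V, StackableAt G r

/-- The generalized Johnson graph `J(m,k,s)`. -/
def genJohnson (m k s : ℕ) : SimpleGraph {A : Finset (Fin m) // A.card = k} where
  Adj A B := A ≠ B ∧ (A.1 ∩ B.1).card = s
  symm := ⟨fun A B h => ⟨h.1.symm, by rw [Finset.inter_comm]; exact h.2⟩⟩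
  loopless := ⟨fun A h => h.1 rfl⟩

section
variable {V : Type*} [DecidableEq V] {G : SimpleGraph V}

omit [DecidableEq V] in
/-- Along a path, the distance between two ends is at most the number of steps. -/
theorem dist_le_of_chain : ∀ (l : List V) (x y : V), List.IsChain G.Adj (x :: (l ++ [y])) →
    G.Reachable x y ∧ G.dist x y ≤ l.length + 1 := by
  intro l
  induction l with
  | nil =>
    intro x y h
    have hxy : G.Adj x y := by simpa using h
    refine ⟨hxy.reachable, ?_⟩
    have := SimpleGraph.dist_le (Walk.cons hxy Walk.nil)
    simpa using this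
  | cons a l ih =>
    intro x y h
    have h' : G.Adj x a ∧ List.IsChain G.Adj (a :: (l ++ [y])) := by
      simpa [List.isChain_cons_cons] using h
    obtain ⟨hr, hd⟩ := ih a y h'.2
    obtain ⟨p, hp⟩ := hr.exists_walk_length_eq_dist
    refine ⟨h'.1.reachable.trans hr, ?_⟩
    have := SimpleGraph.dist_le (Walk.cons h'.1 p)
    simp only [Walk.length_cons, List.length_cons] at this ⊢
    omega

/-- The main lemma: the cups of a path can be collected on its first vertex. -/
theorem stack_path : ∀ (n : ℕ) (l : List V) (x : V) (C : V → ℕ), l.length = n →
    List.IsChain G.Adj (x :: l) → (x :: l).Nodup → 1 ≤ C x → (∀ v ∈ l, C v = 1) →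
    Relation.ReflTransGen (Move G) C
      (fun v => if v = x then C x + l.length else if v ∈ l then 0 else C v) := by
  intro n
  induction n using Nat.strong_induction_on with
  | _ n ih =>
    intro l x C hn hc hnd hx hl
    rcases List.eq_nil_or_concat l with rfl | ⟨l0, y, rfl⟩
    · have : (fun v => if v = x then C x + ([] : List V).length else
          if v ∈ ([] : List V) then 0 else C v) = C := by
        funext v
        by_cases hv : v = x <;> simp [hv]
      rw [this]
    · -- the last vertex is `y`
      rw [List.concat_eq_append] at *
      obtain ⟨hr, hd⟩ := dist_le_of_chain l0 x y hc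
      set t := G.dist x y with ht
      have hxy : x ≠ y := by
        intro h
        simp [h] at hnd
      have ht1 : 1 ≤ t := hr.pos_dist_of_ne hxy
      -- split `l0 = l1 ++ l2` with `l2` of length `t - 1`
      obtain ⟨l1, l2, rfl, hl2⟩ : ∃ l1 l2, l0 = l1 ++ l2 ∧ l2.length = t - 1 := by
        refine ⟨l0.take (l0.length - (t - 1)), l0.drop (l0.length - (t - 1)), by simp, ?_⟩
        simp
        omega
      -- first collect the last `t` vertices on `y`
      have hlen : (l1 ++ l2 ++ [y]).length = l1.length + l2.length + 1 := by simp; ring
      have hch : List.IsChain G.Adj (l2 ++ [y]) := by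
        have h1 : List.IsChain G.Adj (l1 ++ (l2 ++ [y])) := by
          rw [← List.append_assoc]; exact hc.tail
        exact (List.isChain_append.1 h1).2.1
      have hch' : List.IsChain G.Adj (y :: l2.reverse) := by
        have h2 : List.IsChain (flip G.Adj) (l2 ++ [y]).reverse := List.isChain_reverse.2 (by
          simpa [flip] using hch)
        have h3 : (flip G.Adj) = G.Adj := by
          funext a b
          simp [flip, G.adj_comm]
        rw [h3] at h2
        simpa using h2
      have hnd' : (y :: l2.reverse).Nodup := by
        have : (l2 ++ [y]).Nodup := by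
          have h1 : (l1 ++ (l2 ++ [y])).Nodup := by
            rw [← List.append_assoc]; exact (List.nodup_cons.1 hnd).2
          exact (List.nodup_append.1 h1).2.1
        have h2 := List.nodup_reverse.2 this
        simpa using h2
      have hCy : C y = 1 := hl y (by simp)
      have hCl2 : ∀ v ∈ l2.reverse, C v = 1 := fun v hv => hl v (by
        have : v ∈ l2 := by simpa using hv
        simp [this])
      have step1 := ih (l2.reverse.length) (by simp; omega) l2.reverse y C rfl hch' hnd'
        (by omega) hCl2
      set C1 : V → ℕ := fun v => if v = y then C y + l2.reverse.length else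
        if v ∈ l2.reverse then 0 else C v with hC1
      have hC1y : C1 y = t := by
        simp [hC1, hCy, hl2]
        omega
      have hxl : x ∉ l1 ++ l2 ++ [y] := (List.nodup_cons.1 hnd).1
      have hxl2 : x ∉ l2 := fun h => hxl (by simp [h])
      have hxl1 : x ∉ l1 := fun h => hxl (by simp [h])
      have hC1x : C1 x = C x := by
        simp [hC1, hxy, hxl2]
      -- move `y` onto `x`
      set C2 : V → ℕ := fun v => if v = x then C x + t else if v = y then 0 else C1 v with hC2
      have step2 : Move G C1 C2 := by
        refine ⟨y, x, by omega, by omega, ?_, ?_, ?_, ?_⟩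
        · rw [SimpleGraph.dist_comm, hC1y]
        · simp [hC2, hxy.symm]
        · simp [hC2, hC1x, hC1y]; ring
        · intro w hwy hwx
          simp [hC2, hwy, hwx]
      -- recurse on the remaining path
      have hnd0 : (l1 ++ l2 ++ [y]).Nodup := (List.nodup_cons.1 hnd).2
      have hch1 : List.IsChain G.Adj (x :: l1) := by
        have h1 : List.IsChain G.Adj ((x :: l1) ++ (l2 ++ [y])) := by
          simpa using hc
        exact (List.isChain_append.1 h1).1
      have hnd1 : (x :: l1).Nodup := by
        have h1 : ((x :: l1) ++ (l2 ++ [y])).Nodup := by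
          simpa using hnd
        exact (List.nodup_append.1 h1).1
      have hdisj : ∀ v ∈ l1, v ∉ l2 ∧ v ≠ y := by
        intro v hv
        have h1 : (l1 ++ (l2 ++ [y])).Nodup := by
          rw [← List.append_assoc]; exact hnd0
        have h2 := (List.nodup_append.1 h1).2.2
        constructor
        · intro h
          exact h2 v hv v (by simp [h]) rfl
        · intro h
          exact h2 v hv y (by simp) h
      have hC2l1 : ∀ v ∈ l1, C2 v = 1 := by
        intro v hv
        have hvx : v ≠ x := fun h => hxl1 (h ▸ hv)
        obtain ⟨h1, h2⟩ := hdisj v hv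
        simp only [hC2, hC1, hvx, h2, if_false]
        simp [h1, hl v (by simp [hv])]
      have step3 := ih l1.length (by omega) l1 x C2 rfl hch1 hnd1
        (by simp [hC2]; omega) hC2l1
      have hfin : (fun v => if v = x then C2 x + l1.length else if v ∈ l1 then 0 else C2 v) =
          (fun v => if v = x then C x + (l1 ++ l2 ++ [y]).length else
            if v ∈ l1 ++ l2 ++ [y] then 0 else C v) := by
        funext v
        by_cases hvx : v = x
        · subst hvx
          simp [hC2, hl2]
          omega
        · by_cases hv1 : v ∈ l1
          · simp [hvx, hv1]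
          · by_cases hvy : v = y
            · subst hvy
              simp [hC2, hvx, hv1]
            · by_cases hv2 : v ∈ l2
              · simp [hC2, hC1, hvx, hv1, hvy, hv2]
              · simp [hC2, hC1, hvx, hv1, hvy, hv2]
      rw [← hfin]
      exact (step1.tail step2).trans step3

/-- A graph with a Hamiltonian path starting at `r` is `r`-stackable. -/
theorem stackableAt_of_path [Fintype V] {r v : V} (p : G.Walk r v) (hp : p.IsHamiltonian) :
    StackableAt G r := by
  have hsup : p.support = r :: p.support.tail := p.cons_tail_support.symm
  have hch := p.isChain_adj_support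
  have hnd := hp.isPath.support_nodup
  have hlen := hp.length_support
  have hmem := hp.mem_support
  rw [hsup] at hch hnd hlen
  have key := stack_path (G := G) p.support.tail.length p.support.tail r (fun _ => 1) rfl hch hnd
    le_rfl (fun _ _ => rfl)
  unfold StackableAt
  convert key using 2
  rename_i w
  by_cases hw : w = r
  · simp only [hw, if_true]
    rw [List.length_cons] at hlen
    omega
  · have : w ∈ p.support.tail := by
      have h := hmem w
      rw [hsup, List.mem_cons] at h
      exact h.resolve_left hw
    simp [hw, this]

end

/-- For two `k`-subsets of `Fin m` some automorphism of `J(m,k,s)` maps one to the other. -/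
theorem exists_aut {m k s : ℕ} (a b : {A : Finset (Fin m) // A.card = k}) :
    ∃ f : genJohnson m k s →g genJohnson m k s, Function.Bijective f ∧ f a = b := by
  classical
  have hcard : Fintype.card {x // x ∈ a.1} = Fintype.card {x // x ∈ b.1} := by
    simp [a.2, b.2]
  let e : {x // x ∈ a.1} ≃ {x // x ∈ b.1} := Fintype.equivOfCardEq hcard
  let σ : Equiv.Perm (Fin m) := e.extendSubtype
  let F : {A : Finset (Fin m) // A.card = k} → {A : Finset (Fin m) // A.card = k} :=
    fun A => ⟨A.1.map σ.toEmbedding, by rw [Finset.card_map]; exact A.2⟩
  have hinj : Function.Injective F := by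
    intro A B h
    have h1 : A.1.map σ.toEmbedding = B.1.map σ.toEmbedding := congrArg Subtype.val h
    exact Subtype.ext (Finset.map_injective _ h1)
  refine ⟨⟨F, ?_⟩, ⟨hinj, Finite.surjective_of_injective hinj⟩, ?_⟩
  · intro A B h
    refine ⟨fun hh => h.1 (hinj hh), ?_⟩
    show ((A.1.map σ.toEmbedding) ∩ (B.1.map σ.toEmbedding)).card = s
    rw [← Finset.map_inter, Finset.card_map]
    exact h.2
  · apply Subtype.ext
    show a.1.map σ.toEmbedding = b.1
    apply Finset.eq_of_subset_of_card_le
    · intro x hx
      obtain ⟨y, hy, rfl⟩ := Finset.mem_map.1 hx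
      exact e.extendSubtype_mem y hy
    · rw [Finset.card_map, a.2, b.2]

/-- Let `G` be a finite graph. If `G` has a Hamiltonian path starting at `r`, then `G` is
`r`-stackable. Consequently every Hamiltonian graph is stackable, whatever its diameter, and every
generalized Johnson graph `J(m,k,s)` that has a Hamiltonian path is stackable. -/
theorem result :
    (∀ (V : Type) [Fintype V] [DecidableEq V] (G : SimpleGraph V) (r v : V) (p : G.Walk r v),
      p.IsHamiltonian → StackableAt G r) ∧
    (∀ (V : Type) [Fintype V] [DecidableEq V] (G : SimpleGraph V),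
      G.IsHamiltonian → Stackable G) ∧
    (∀ (m k s : ℕ) (a b : {A : Finset (Fin m) // A.card = k}) (p : (genJohnson m k s).Walk a b),
      p.IsHamiltonian → Stackable (genJohnson m k s)) := by
  refine ⟨fun V _ _ G r v p hp => stackableAt_of_path p hp, ?_, ?_⟩
  · intro V _ _ G hG r
    by_cases hc : Fintype.card V = 1
    · have : Subsingleton V := Fintype.card_le_one_iff_subsingleton.1 hc.le
      exact stackableAt_of_path (v := r) Walk.nil Walk.IsHamiltonian.of_subsingleton
    · obtain ⟨a, p, hp⟩ := hG hc
      have hq := (hp.rotate (hp.mem_support r)).isHamiltonian_tail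
      refine stackableAt_of_path (p.rotate r (hp.mem_support r)).tail.reverse ?_
      intro w
      rw [Walk.support_reverse, List.count_reverse]
      exact hq w
  · intro m k s a b p hp r
    obtain ⟨f, hf, hfa⟩ := exists_aut (s := s) a r
    have h1 := hp.map f hf
    have h2 := stackableAt_of_path _ h1
    rwa [hfa] at h2

end Pool.Agent.Results.MP_463e5e_co.HamiltonianStackable
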