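import Mathlib
import Pool.Agent.Results.MP_463e5e_co.HamiltonianStackable

/-!
# Every Johnson graph is stackable

The `k`-subsets of an `m`-element set, in revolving-door order, form a Hamiltonian path of the
Johnson graph `J(m,k,k-1)`; the cups of a Hamiltonian path can be collected on its first vertex,
and the graph is vertex-transitive.
-/

namespace Pool.Agent.Results.MP_463e5e_co.JohnsonStackable

open Pool.Agent.Results.MP_463e5e_co.HamiltonianStackable


/-- Adjacency of `k`-subsets of `ℕ` in the Johnson graph. -/
def Near (k : ℕ) (S T : Finset ℕ) : Prop := S ≠ T ∧ (S ∩ T).card + 1 = k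

/-- The last set of the revolving-door order. -/
def lastSet (m k : ℕ) : Finset ℕ := if k = 0 then ∅ else insert (m - 1) (Finset.range (k - 1))

theorem near_comm {k : ℕ} {S T : Finset ℕ} (h : Near k S T) : Near k T S :=
  ⟨h.1.symm, by rw [Finset.inter_comm]; exact h.2⟩

/-- The revolving-door order of the `k`-subsets of `{0, ..., m - 1}`. -/
theorem revolving (m : ℕ) : ∀ k : ℕ, k ≤ m → ∃ l : List (Finset ℕ), l.Nodup ∧
    (∀ S, S ∈ l ↔ S ⊆ Finset.range m ∧ S.card = k) ∧ List.IsChain (Near k) l ∧
    l.head? = some (Finset.range k) ∧ l.getLast? = some (lastSet m k) := by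
  induction m with
  | zero =>
    intro k hk
    obtain rfl : k = 0 := by omega
    refine ⟨[∅], by simp, ?_, by simp, by simp, by simp [lastSet]⟩
    intro S
    simp
  | succ m ih =>
    intro k hk
    rcases Nat.eq_zero_or_pos k with rfl | hkpos
    · refine ⟨[∅], by simp, ?_, by simp, by simp, by simp [lastSet]⟩
      intro S
      simp
      intro h
      simp [h]
    obtain ⟨j, rfl⟩ : ∃ j, k = j + 1 := ⟨k - 1, by omega⟩
    rcases Nat.lt_or_ge m (j + 1) with hlt | hge
    · -- only one subset
      obtain rfl : j = m := by omega
      refine ⟨[Finset.range (j + 1)], by simp, ?_, by simp, by simp, ?_⟩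
      · intro S
        rw [List.mem_singleton]
        constructor
        · rintro rfl
          simp
        · rintro ⟨h1, h2⟩
          exact Finset.eq_of_subset_of_card_le h1 (by simp [h2])
      · simp [lastSet, Finset.range_add_one]
    · obtain ⟨l1, hn1, hm1, hc1, hh1, ht1⟩ := ih (j + 1) hge
      obtain ⟨l2, hn2, hm2, hc2, hh2, ht2⟩ := ih j (by omega)
      have hnot : ∀ S ∈ l2, m ∉ S := by
        intro S hS hmS
        have := ((hm2 S).1 hS).1 hmS
        simp at this
      have hnot1 : ∀ S ∈ l1, m ∉ S := by
        intro S hS hmS
        have := ((hm1 S).1 hS).1 hmS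
        simp at this
      refine ⟨l1 ++ (l2.reverse.map (insert m)), ?_, ?_, ?_, ?_, ?_⟩
      · rw [List.nodup_append]
        refine ⟨hn1, ?_, ?_⟩
        · refine (List.nodup_map_iff_inj_on (List.nodup_reverse.2 hn2)).2 ?_
          intro S hS T hT hST
          rw [List.mem_reverse] at hS hT
          have h1 := hnot S hS
          have h2 := hnot T hT
          rw [← Finset.erase_insert h1, ← Finset.erase_insert h2, hST]
        · intro S hS T hT hST
          rw [List.mem_map] at hT
          obtain ⟨U, -, rfl⟩ := hT
          exact hnot1 S hS (hST ▸ Finset.mem_insert_self m U)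
      · intro S
        rw [List.mem_append, List.mem_map, hm1]
        constructor
        · rintro (⟨h1, h2⟩ | ⟨U, hU, rfl⟩)
          · exact ⟨h1.trans (Finset.range_mono (Nat.le_succ m)), h2⟩
          · rw [List.mem_reverse] at hU
            have h3 := (hm2 U).1 hU
            refine ⟨?_, ?_⟩
            · intro x hx
              rw [Finset.mem_insert] at hx
              rcases hx with rfl | hx
              · simp
              · have := h3.1 hx
                simp at this ⊢
                omega
            · rw [Finset.card_insert_of_notMem (hnot U hU), h3.2]
        · rintro ⟨h1, h2⟩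
          by_cases hmS : m ∈ S
          · right
            refine ⟨S.erase m, ?_, Finset.insert_erase hmS⟩
            rw [List.mem_reverse, hm2]
            refine ⟨?_, ?_⟩
            · intro x hx
              have hx1 := h1 (Finset.mem_of_mem_erase hx)
              have hx2 := Finset.ne_of_mem_erase hx
              simp at hx1 ⊢
              omega
            · rw [Finset.card_erase_of_mem hmS, h2]
              rfl
          · left
            refine ⟨?_, h2⟩
            intro x hx
            have hx1 := h1 hx
            have hx2 : x ≠ m := fun h => hmS (h ▸ hx)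
            simp at hx1 ⊢
            omega
      · rw [List.isChain_append]
        refine ⟨hc1, ?_, ?_⟩
        · rw [List.isChain_map, List.isChain_reverse]
          refine List.IsChain.imp_of_mem_imp ?_ hc2
          intro S T hS hT hST
          have h1 := hnot S hS
          have h2 := hnot T hT
          have h3 := near_comm hST
          refine ⟨?_, ?_⟩
          · intro h
            apply h3.1
            rw [← Finset.erase_insert h2, ← Finset.erase_insert h1, h]
          · rw [← Finset.insert_inter_distrib, Finset.card_insert_of_notMem, h3.2]
            intro h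
            exact h2 (Finset.mem_of_mem_inter_left h)
        · intro x hx y hy
          rw [ht1] at hx
          obtain rfl : lastSet m (j + 1) = x := by simpa using hx
          have hy' : insert m (lastSet m j) = y := by
            rw [List.head?_map, List.head?_reverse, ht2] at hy
            simpa using hy
          rw [← hy']
          rcases Nat.eq_zero_or_pos j with rfl | hj
          · have hmm : m - 1 ≠ m := by omega
            refine ⟨?_, ?_⟩
            · intro h
              have h1 : m ∈ lastSet m (0 + 1) := by
                rw [h]; simp
              simp [lastSet] at h1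
              omega
            · have : lastSet m (0 + 1) ∩ insert m (lastSet m 0) = ∅ := by
                ext x
                simp only [lastSet, Nat.zero_add, one_ne_zero, if_false, if_true, Finset.mem_inter,
                  Finset.mem_insert, Nat.sub_self, Finset.range_zero, Finset.notMem_empty,
                  or_false, iff_false]
                omega
              rw [this]
              simp
          · obtain ⟨i, rfl⟩ : ∃ i, j = i + 1 := ⟨j - 1, by omega⟩
            have hA : lastSet m (i + 1 + 1) = insert (m - 1) (Finset.range (i + 1)) := by
              simp [lastSet]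
            have hB : lastSet m (i + 1) = insert (m - 1) (Finset.range i) := by
              simp [lastSet]
            have hmA : m ∉ lastSet m (i + 1 + 1) := by
              rw [hA]
              simp
              omega
            refine ⟨?_, ?_⟩
            · intro h
              apply hmA
              rw [h]
              simp
            · have : lastSet m (i + 1 + 1) ∩ insert m (lastSet m (i + 1)) =
                  insert (m - 1) (Finset.range i) := by
                ext x
                rw [hA, hB]
                simp only [Finset.mem_inter, Finset.mem_insert, Finset.mem_range]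
                omega
              rw [this, Finset.card_insert_of_notMem (by simp; omega), Finset.card_range]
      · rw [List.head?_append, hh1]
        rfl
      · have hne : l2.reverse.map (insert m) ≠ [] := by
          intro h
          have : l2 = [] := by simpa using h
          rw [this] at hh2
          simp at hh2
        rw [List.getLast?_append_of_ne_nil _ hne, List.getLast?_map, List.getLast?_reverse, hh2]
        simp [lastSet]


/-- The revolving-door order as a list of vertices of `J(m,k,k-1)`. -/
theorem johnson_list {m k : ℕ} (hk : 1 ≤ k) (hkm : k ≤ m) :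
    ∃ l : List {A : Finset (Fin m) // A.card = k}, l.Nodup ∧ (∀ A, A ∈ l) ∧
      List.IsChain (genJohnson m k (k - 1)).Adj l := by
  obtain ⟨l, hn, hm, hc, -, -⟩ := revolving m k hkm
  let f : {A : Finset (Fin m) // A.card = k} → Finset ℕ := fun A => A.1.map Fin.valEmbedding
  have hf : Function.Injective f := by
    intro A B h
    exact Subtype.ext (Finset.map_injective _ h)
  have hrange : ∀ S ∈ l, S ∈ Set.range f := by
    intro S hS
    obtain ⟨h1, h2⟩ := (hm S).1 hS
    have h3 : ∀ x ∈ S, x < m := fun x hx => Finset.mem_range.1 (h1 hx)
    refine ⟨⟨S.attachFin h3, by rw [Finset.card_attachFin, h2]⟩, ?_⟩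
    show (S.attachFin h3).map Fin.valEmbedding = S
    exact Finset.map_valEmbedding_attachFin h3
  obtain ⟨l', hl'⟩ : l ∈ Set.range (List.map f) := by
    rw [Set.range_list_map]
    exact hrange
  refine ⟨l', List.Nodup.of_map f (hl' ▸ hn), ?_, ?_⟩
  · intro A
    have h1 : f A ∈ l := by
      rw [hm]
      refine ⟨?_, ?_⟩
      · intro x hx
        obtain ⟨y, -, rfl⟩ := Finset.mem_map.1 hx
        simp
      · show (A.1.map Fin.valEmbedding).card = k
        rw [Finset.card_map, A.2]
    rw [← hl', List.mem_map] at h1
    obtain ⟨B, hB, hBA⟩ := h1
    exact hf hBA ▸ hB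
  · rw [← hl', List.isChain_map] at hc
    refine hc.imp ?_
    intro A B h
    refine ⟨fun hAB => h.1 (by rw [hAB]), ?_⟩
    have h2 : ((A.1.map Fin.valEmbedding) ∩ (B.1.map Fin.valEmbedding)).card + 1 = k := h.2
    rw [← Finset.map_inter, Finset.card_map] at h2
    omega

/-- Every Johnson graph `J(m,k,k-1)`, `1 ≤ k ≤ m`, is stackable (its diameter is
`min k (m - k)`). -/
theorem result : ∀ m k : ℕ, 1 ≤ k → k ≤ m → Stackable (genJohnson m k (k - 1)) := by
  intro m k hk hkm r
  obtain ⟨l, hn, hm, hc⟩ := johnson_list hk hkm
  obtain ⟨a, t, rfl⟩ : ∃ a t, l = a :: t := by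
    cases l with
    | nil => exact absurd (hm r) (by simp)
    | cons a t => exact ⟨a, t, rfl⟩
  obtain ⟨f, hf, hfa⟩ := exists_aut (s := k - 1) a r
  have hn' : ((a :: t).map f).Nodup := hn.map hf.1
  have hc' : List.IsChain (genJohnson m k (k - 1)).Adj ((a :: t).map f) := by
    rw [List.isChain_map]
    exact hc.imp fun A B h => f.map_adj h
  have hm' : ∀ w, w ∈ (a :: t).map f := by
    intro w
    obtain ⟨v, rfl⟩ := hf.2 w
    exact List.mem_map_of_mem (hm v)
  rw [List.map_cons, hfa] at hn' hc' hm'
  have key := stack_path (G := genJohnson m k (k - 1)) (t.map f).length (t.map f) r (fun _ => 1)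
    rfl hc' hn' le_rfl (fun _ _ => rfl)
  have hcard : Fintype.card {A : Finset (Fin m) // A.card = k} = 1 + (t.map f).length := by
    have h1 : (r :: t.map f).toFinset = Finset.univ := by
      ext w
      simp only [List.mem_toFinset, Finset.mem_univ, iff_true]
      exact hm' w
    rw [← Finset.card_univ, ← h1, List.toFinset_card_of_nodup hn', List.length_cons]
    omega
  unfold StackableAt
  convert key using 2
  rename_i w
  by_cases hw : w = r
  · simp only [hw, if_true]
    exact hcard
  · have : w ∈ t.map f := by
      have h := hm' w
      rw [List.mem_cons] at h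
      exact h.resolve_left hw
    simp only [hw, if_false, this, if_true]

end Pool.Agent.Results.MP_463e5e_co.JohnsonStackable
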